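import Mathlib
import Pool.Agent.Helper61_Gamma.Thm
import Pool.Agent.Helper61_Gamma.Ex

/-!
The exact value `γ(5) = 16`.
-/

namespace Pool.Agent.Results.MP_9a4f8a_co.GammaFive

open Pool.Agent.Helper61_Gamma

universe u v

instance factFive : Fact (Nat.Prime 5) := ⟨by norm_num⟩

/-- `γ(5) = 16`: the least `N` such that every simple rank three `GF(5)`-representable matroid with
at least `N` points is representable only over fields of characteristic `5` is `16`. -/
theorem result : IsLeast {N : ℕ | Forces.{u, v} 5 N} 16 := by
  refine ⟨forces_five, ?_⟩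
  intro N hN
  by_contra hcon
  push Not at hcon
  obtain ⟨h1, h2, h3, h4, K, _, hc, hK⟩ := exM_spec.{u, v}
  have h5 : CharP K 5 := hN _ exM h1 h2 h4 (by
    rw [h3]
    have : N ≤ 15 := by omega
    exact_mod_cast this) K hK
  have h6 := CharP.eq K h5 hc
  omega

end Pool.Agent.Results.MP_9a4f8a_co.GammaFive
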