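import Mathlib
import Pool.Agent.Helper85_BOG.All
import Pool.Agent.Helper69_BOG.MatC
import Pool.Agent.Helper85_Gamma.Many
import Pool.Agent.Helper85_Gamma.Ex2
import Pool.Agent.Helper85_Gamma.Ex3

/-!
What a simple rank three matroid with more than `3 p` points, representable over `GF(p)` and over a
field of another characteristic, must look like.
-/

namespace Pool.Agent.Results.MP_9a4f8a_co.SecondField

open Pool.Agent.Helper61_Gamma Pool.Agent.Helper85_Gamma

theorem and_of_imp {a b : Prop} (h1 : a) (h2 : a → b) : a ∧ b := ⟨h1, h2 h1⟩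

universe u v

/-- No simple rank three matroid in the class `C` with at least `N` points is representable over
`GF(p)` and over a field of characteristic `ℓ`. -/
def NoCommon (p : ℕ) [Fact p.Prime] (ℓ : ℕ) (C : (α : Type u) → Matroid α → Prop) (N : ℕ) : Prop :=
  ∀ (α : Type u) (G : Matroid α), IsSimple G → G.eRank = 3 → C α G → RepOver (ZMod p) G →
    (N : ℕ∞) ≤ G.E.encard → ∀ (K : Type v) [Field K], CharP K ℓ → ¬ RepOver K G

/-- Let `p ≥ 5` be prime, `G` a simple rank three matroid representable over `GF(p)` with at least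
`3 p + 1` points, and `K` a field of characteristic different from `p` over which `G` is
representable. Then

* `0 < char K ≤ (4/3) (3 p + 1) ⌈3 √p⌉`, and more generally `char K ≤ (4/3) n w` whenever
  `3 p < n ≤ |G|` and `3 (n - 1)^2 < w^2 n (n - 3 p)`;
* `|G| < 7 p / 2` if `char K > 7 p / 6`;
* `|K| ≥ 6 p / 7` if `K` is finite;
* every line (set of rank at most two) of `G` has at most `p - 1` points;
* the number of points plus the number of lines (flats of rank two) is at most `p^2 + 3 p + 3`.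

Consequently, for every second characteristic `ℓ ≠ p` (zero or prime), the least `N` such that no
simple rank three matroid with at least `N` points is representable over `GF(p)` and in
characteristic `ℓ` is `3 p + 1`, if `ℓ = 0` or `ℓ > (4/3) (3 p + 1) ⌈3 √p⌉`, and without any
condition on `ℓ` the least `N` is `3 p + 1` for the matroids with a line with at least `p` points and
for the matroids with at least `p^2 + 3` lines. -/
theorem result (p : ℕ) [hp : Fact p.Prime] (h5 : 5 ≤ p) :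
    (∀ (α : Type u) (G : Matroid α), IsSimple G → G.eRank = 3 → RepOver (ZMod p) G →
      ((3 * p + 1 : ℕ) : ℕ∞) ≤ G.E.encard →
      ∀ (K : Type v) [Field K], RepOver K G → ¬ CharP K p →
        (0 < ringChar K ∧ 3 * ringChar K ≤ 4 * ((3 * p + 1) * ⌈3 * √(p : ℝ)⌉₊)) ∧
        (∀ n w : ℕ, 3 * p < n → (n : ℕ∞) ≤ G.E.encard →
          3 * (n - 1) ^ 2 < w ^ 2 * (n * (n - 3 * p)) → 3 * ringChar K ≤ 4 * (n * w)) ∧
        (7 * p < 6 * ringChar K → 2 * G.E.encard < ((7 * p : ℕ) : ℕ∞)) ∧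
        (Finite K → 6 * p ≤ 7 * Nat.card K) ∧
        (∀ A ⊆ G.E, G.eRk A ≤ 2 → A.encard < (p : ℕ∞)) ∧
        G.E.encard + {A : Set α | G.IsFlat A ∧ G.eRk A = 2}.encard ≤
          ((p ^ 2 + 3 * p + 3 : ℕ) : ℕ∞)) ∧
    (∀ ℓ : ℕ, ℓ = 0 ∨ ℓ.Prime → ℓ ≠ p →
      (ℓ = 0 ∨ 4 * ((3 * p + 1) * ⌈3 * √(p : ℝ)⌉₊) < 3 * ℓ →
        IsLeast {N : ℕ | NoCommon.{u, v} p ℓ (fun _ _ => True) N} (3 * p + 1)) ∧
      IsLeast {N : ℕ | NoCommon.{u, v} p ℓ (fun _ G => LongLine p G) N} (3 * p + 1) ∧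
      IsLeast {N : ℕ | NoCommon.{u, v} p ℓ (fun _ G => ManyLines p G) N} (3 * p + 1)) := by
  refine and_of_imp ?_ ?_
  · intro α G hs hr hF hN K _ hK hch
    have hgen : ∀ n w : ℕ, 3 * p < n → (n : ℕ∞) ≤ G.E.encard →
        3 * (n - 1) ^ 2 < w ^ 2 * (n * (n - 3 * p)) →
        ringChar K ≠ 0 ∧ 3 * ringChar K ≤ 4 * (n * w) := by
      intro n w hn hnG hw
      have hw1 : 1 ≤ w := by
        rcases Nat.eq_zero_or_pos w with h | h
        · subst h
          simp at hw
        · exact h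
      have hwz : (3 * ((n : ℤ) - 1) ^ 2 : ℤ) < (w : ℤ) ^ 2 * n * (n - 3 * p) := by
        have h1 : ((3 * (n - 1) ^ 2 : ℕ) : ℤ) < ((w ^ 2 * (n * (n - 3 * p)) : ℕ) : ℤ) := by
          exact_mod_cast hw
        rw [Nat.cast_mul, Nat.cast_pow, Nat.cast_sub (by omega), Nat.cast_mul, Nat.cast_mul,
          Nat.cast_sub hn.le, Nat.cast_pow, Nat.cast_mul] at h1
        push_cast at h1
        linarith
      have key := Pool.Agent.BOG.H85.mat_all.{u, v} p n w hw1 hn hwz α G hs hr hF K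
      by_contra hcon
      have h1 : ringChar K = 0 ∨ 4 * w * n < 3 * ringChar K := by
        by_cases h0 : ringChar K = 0
        · exact Or.inl h0
        · right
          have h2 : ¬ 3 * ringChar K ≤ 4 * (n * w) := fun h => hcon ⟨h0, h⟩
          have h3 : 4 * w * n = 4 * (n * w) := by ring
          omega
      exact absurd hnG (not_le.mpr (key h1 hK))
    have hsq : 3 * (3 * p + 1 - 1) ^ 2 <
        ⌈3 * √(p : ℝ)⌉₊ ^ 2 * ((3 * p + 1) * (3 * p + 1 - 3 * p)) := by
      have h1 : 3 * √(p : ℝ) ≤ ⌈3 * √(p : ℝ)⌉₊ := Nat.le_ceil _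
      have h2 : (9 * p : ℝ) ≤ (⌈3 * √(p : ℝ)⌉₊ : ℝ) ^ 2 := by
        have h3 : (9 * p : ℝ) = (3 * √(p : ℝ)) ^ 2 := by
          rw [mul_pow, Real.sq_sqrt (Nat.cast_nonneg p)]
          norm_num
        rw [h3]
        exact pow_le_pow_left₀ (by positivity) h1 2
      have h4 : 9 * p ≤ ⌈3 * √(p : ℝ)⌉₊ ^ 2 := by exact_mod_cast h2
      have e1 : 3 * p + 1 - 1 = 3 * p := by omega
      have e2 : 3 * p + 1 - 3 * p = 1 := by omega
      rw [e1, e2, mul_one]
      have h5' : 9 * p * (3 * p + 1) ≤ ⌈3 * √(p : ℝ)⌉₊ ^ 2 * (3 * p + 1) :=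
        Nat.mul_le_mul_right _ h4
      nlinarith
    have hmain := hgen (3 * p + 1) ⌈3 * √(p : ℝ)⌉₊ (by omega) hN hsq
    refine ⟨⟨Nat.pos_of_ne_zero hmain.1, hmain.2⟩, fun n w hn hnG hw => (hgen n w hn hnG hw).2,
      ?_, ?_, ?_, ?_⟩
    · intro h7
      have h1 := Pool.Agent.BOG.H69.mat_char p hs hr hF (Or.inr h7) hK (n := (7 * p + 1) / 2)
        (by omega)
      have hfin : G.E.Finite := Set.encard_lt_top_iff.mp (h1.trans (ENat.natCast_lt_top _))
      rw [hfin.encard_eq_coe_toFinset_card] at h1 ⊢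
      have h2 : hfin.toFinset.card < (7 * p + 1) / 2 := by exact_mod_cast h1
      exact_mod_cast (by omega : 2 * hfin.toFinset.card < 7 * p)
    · intro hfin
      by_contra hcon
      have h1 := Pool.Agent.BOG.H69.mat_small p hs hr hF (by omega) hK (n := 3 * p + 1)
        (by omega)
      exact absurd hN (not_le.mpr h1)
    · intro A hA h2
      by_contra hcon
      exact hch (charP_of_longLine h5 hs hr hF hN ⟨A, hA, h2, not_lt.mp hcon⟩ hK)
    · by_contra hcon
      apply hch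
      apply charP_of_points_lines h5 hs hr hF hN _ hK
      have h1 := not_le.mp hcon
      have h2 : ((p ^ 2 + 3 * p + 4 : ℕ) : ℕ∞) = ((p ^ 2 + 3 * p + 3 : ℕ) : ℕ∞) + 1 := by
        push_cast
        ring
      rw [h2]
      exact Order.add_one_le_of_lt h1
  · intro hstr ℓ hℓ hne
    have hex : ∀ (C : (α : Type u) → Matroid α → Prop) (N : ℕ), C _ (exMat.{u} p) →
        NoCommon.{u, v} p ℓ C N → 3 * p + 1 ≤ N := by
      intro C N hC hN
      by_contra hcon
      obtain ⟨h1, h2, h3, h4, -, -⟩ := exMat_spec.{u, v} p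
      obtain ⟨K, _, hc, hK⟩ := exMat_rep.{u, v} (p := p) ℓ hℓ hne
      refine hN _ (exMat.{u} p) h1 h2 hC h4 ?_ K hc hK
      rw [h3]
      exact_mod_cast (by omega : N ≤ 3 * p)
    have hnc : ∀ (K : Type v) [Field K], CharP K ℓ → ¬ CharP K p := by
      intro K _ h1 h2
      exact hne (CharP.eq K h1 h2)
    refine ⟨fun hbig => ⟨?_, fun N hN => hex _ N trivial hN⟩,
      ⟨?_, fun N hN => hex _ N exMat_long hN⟩, ⟨?_, fun N hN => hex _ N exMat_many hN⟩⟩
    · intro α G hs hr _ hF hN K _ hc hK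
      have h1 := (hstr α G hs hr hF hN K hK (hnc K hc)).1
      rw [ringChar.eq K ℓ] at h1
      omega
    · intro α G hs hr hC hF hN K _ hc hK
      obtain ⟨A, hA, hA2, hAp⟩ := hC
      exact absurd ((hstr α G hs hr hF hN K hK (hnc K hc)).2.2.2.2.1 A hA hA2) (not_lt.mpr hAp)
    · intro α G hs hr hC hF hN K _ hc hK
      exact hnc K hc (charP_of_manyLines h5 hs hr hF hN hC hK)

end Pool.Agent.Results.MP_9a4f8a_co.SecondField
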