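import Mathlib
import Pool.Agent.Helper61_Gamma.Thm

/-!
For every prime `p ≥ 5` the threshold `γ(p)` is at most `(p + 1) ⌈√p⌉`.
-/

namespace Pool.Agent.Results.MP_9a4f8a_co.UpperSqrt

open Pool.Agent.Helper61_Gamma

universe u v

/-- For every prime `p ≥ 5`, the least `N` such that every simple rank three `GF(p)`-representable
matroid with at least `N` points is representable only over fields of characteristic `p` exists and
is at most `(p + 1) ⌈√p⌉`. -/
theorem result (p : ℕ) [hp : Fact p.Prime] (h5 : 5 ≤ p) :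
    ∃ g : ℕ, IsLeast {N : ℕ | Forces.{u, v} p N} g ∧ g ≤ (p + 1) * ⌈√(p : ℝ)⌉₊ := by
  classical
  obtain ⟨h1, h2, h3⟩ := ceil_sqrt_facts hp.out h5
  have hmain : Forces.{u, v} p ((p + 1) * ⌈√(p : ℝ)⌉₊) := by
    rw [mul_comm]
    exact forces_main p _ h1 h2 h3
  have hne : ∃ N, Forces.{u, v} p N := ⟨_, hmain⟩
  exact ⟨Nat.find hne, ⟨Nat.find_spec hne, fun N hN => Nat.find_min' hne hN⟩,
    Nat.find_min' hne hmain⟩

end Pool.Agent.Results.MP_9a4f8a_co.UpperSqrt
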